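import Pool.Agent.N913.MG.R1

/-!
# Bounded clusters of prime values for almost all polynomials

The Maynard-Tao theorem for the values of almost all polynomials: for all `d` and `m` there are `k`
and `B` such that for every set `S` of at least `k` nonnegative integers, for every integer
polynomial `P` of degree at most `d` with coefficients at most `H (log H)^A`, and for all but at most
`ε H²` of the pairs `(b, c)`, `|b|, |c| ≤ H`, for which `f(x) = P(x) + b x + c` has no fixed prime
divisor, there is a positive integer `n ≤ (log H)^B` such that at least `m` of the numbers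
`|f(n + h)|`, `h ∈ S`, are primes; the same holds for the windows `J < n ≤ J + (log H)^B`, for almost
all members `J` of an arbitrary set of integers `0 ≤ J ≤ (log H)^E` at the same time.

Method: the values `f(t)` are linear forms in the coefficients `b` and `c`, and two of them, for
`t ≠ t'`, are independent, so the second moments over all pairs `(b, c)` of Maynard's weighted sums,
with weights supported on divisors of the values `f(n + h)`, `h ∈ S`, with and without the indicator
functions of the prime values, can be computed (Bombieri-Vinogradov theorem): the weighted sums over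
the `n` in a window of length a power of `log H` are close to their means for almost all pairs, and
the ratio of the means is unbounded.
-/

set_option autoImplicit false

namespace Pool.Agent.Results.MP_51e72e_nt.BoundedClusters

open Finset Polynomial

/-- the polynomial `P(x) + b x + c` -/
noncomputable def pol (P : ℤ[X]) (b c : ℤ) : ℤ[X] := P + C b * X + C c

/-- the number of `h ∈ S` such that `|f(n + h)|` is a prime -/
noncomputable def primesIn (S : Finset ℕ) (f : ℤ[X]) (n : ℕ) : ℕ :=
  #(S.filter (fun h => (f.eval ((n + h : ℕ) : ℤ)).natAbs.Prime))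

/-- no prime divides all values -/
def NoFixedDivisor (f : ℤ[X]) : Prop :=
  ∀ p : ℕ, p.Prime → ∃ t : ℤ, ¬ (p : ℤ) ∣ f.eval t

/-- **Bounded clusters of prime values for almost all polynomials.** For all `d` and `m` there are
`k` and `B` such that for every set `S` of at least `k` nonnegative integers, all `A`, `E` and
`ε > 0`, all `H ≥ H₀`, every finite set `W` of integers `0 ≤ J ≤ (log H)^E` and every integer
polynomial `P` of degree at most `d` with coefficients at most `H (log H)^A` in absolute value, all
but at most `ε H²` of the pairs `(b, c)` of integers, `|b|, |c| ≤ H`, for which `f = P + b x + c` has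
no fixed prime divisor, have the following property: for all but at most `ε #W` of the `J ∈ W` there
is an integer `n` with `J < n ≤ J + (log H)^B` such that at least `m` of the numbers `|f(n + h)|`,
`h ∈ S`, are primes. -/
theorem result (d m : ℕ) : ∃ k B : ℕ, ∀ S : Finset ℕ, k ≤ #S → ∀ (A E : ℕ) (ε : ℝ), 0 < ε →
    ∃ H₀ : ℕ, ∀ H : ℕ, H₀ ≤ H → ∀ W : Finset ℕ, (∀ J ∈ W, (J : ℝ) ≤ Real.log H ^ E) →
    ∀ P : ℤ[X], P.natDegree ≤ d → (∀ i, |(P.coeff i : ℝ)| ≤ H * Real.log H ^ A) →
    ∃ Bad : Finset (ℤ × ℤ), (#Bad : ℝ) ≤ ε * H ^ 2 ∧ ∀ b c : ℤ, |b| ≤ H → |c| ≤ H →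
      NoFixedDivisor (pol P b c) → (b, c) ∉ Bad →
      ∃ G ⊆ W, (1 - ε) * #W ≤ #G ∧ ∀ J ∈ G, ∃ n : ℕ, J < n ∧ (n : ℝ) ≤ J + Real.log H ^ B ∧
        m ≤ primesIn S (pol P b c) n := by
  obtain ⟨k, B, h⟩ := Pool.Agent.N913.MG.polynomials d m
  refine ⟨k, B, fun S hS A E ε hε => ?_⟩
  obtain ⟨X₀, hX⟩ := h S hS A E ε hε
  refine ⟨X₀, fun X hXX W hW P hP hc => ?_⟩
  obtain ⟨Bad, h1, h2⟩ := hX X hXX W hW P hP hc
  refine ⟨Bad, h1, fun b c hb hcc hf hB => ?_⟩
  obtain ⟨G, g1, g2, g3⟩ := h2 b c hb hcc (fun p hp => by
    obtain ⟨t, ht⟩ := hf p hp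
    exact ⟨t, by rw [Pool.Agent.N913.MG.val_eval]; exact ht⟩) hB
  refine ⟨G, g1, g2, fun J hJ => ?_⟩
  obtain ⟨n, n1, n2, n3⟩ := g3 J hJ
  refine ⟨n, n1, n2, n3.trans (le_of_eq ?_)⟩
  unfold primesIn pol
  simp only [Pool.Agent.N913.MG.val_eval]

end Pool.Agent.Results.MP_51e72e_nt.BoundedClusters
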