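import Pool.Agent.N718.BHB

set_option autoImplicit false

/-!
The quantitative Hypothesis H for one polynomial, for all but a proportion `(log H) ^ (-U)` of ALL the polynomials of
degree `d` and height at most `H`, with a relative error `(log H) ^ (-U)`, and for all lengths `H ^ ε ≤ v ≤ H / (log H) ^ B`
simultaneously, for every `ε > 0`.

Proof (library `H300R2`, `TH892`): second moment over the box of the primes minus their sieve model, Fourier expansion in
the value of the polynomial; minor arcs by an inverse theorem for the number of frequencies, major arcs (which are short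
intervals of length about `H v ^ (d - 1)`, on average) by van der Corput's method for the argument and the theorem of
Siegel and Walfisz. Here: from the first moment to all windows.
-/

namespace Pool.Agent.Results.MP_51e72e_nt.PolynomialsOfHeight

open Finset Polynomial

/-- The polynomial `c_0 + c_1 X + ... + c_d X ^ d`. -/
noncomputable def pol {d : ℕ} (c : Fin (d + 1) → ℤ) : ℤ[X] := ∑ i : Fin (d + 1), C (c i) * X ^ (i : ℕ)

/-- The coefficients of the polynomials of degree `d` and height at most `H` with positive leading coefficient: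
`1 ≤ c_d ≤ H` and `|c_i| ≤ H` for all `i < d`. -/
noncomputable def box (d H : ℕ) : Finset (Fin (d + 1) → ℤ) :=
  Fintype.piFinset (fun i => if (i : ℕ) = d then Icc 1 (H : ℤ) else Icc (-(H : ℤ)) H)

/-- The number of `u < n ≤ v` for which `|f(n)|` is prime. -/
noncomputable def primeCount (f : ℤ[X]) (u v : ℕ) : ℕ :=
  ((Ioc u v).filter (fun n : ℕ => (f.eval (n : ℤ)).natAbs.Prime)).card

/-- The sum of `1 / log |f(n)|` over the `u < n ≤ v` with `|f(n)| ≥ 2`. -/
noncomputable def logSum (f : ℤ[X]) (u v : ℕ) : ℝ :=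
  ∑ n ∈ (Ioc u v).filter (fun n : ℕ => 2 ≤ |f.eval (n : ℤ)|), 1 / Real.log |((f.eval (n : ℤ) : ℤ) : ℝ)|

/-- `ω_f(p)`: the number of residue classes of `n` modulo `p` with `f(n) ≡ 0 (mod p)`. -/
noncomputable def omega (f : ℤ[X]) (p : ℕ) : ℕ := ((range p).filter (fun n : ℕ => (p : ℤ) ∣ f.eval (n : ℤ))).card

/-- `C_f(z)`: the part of the product `C_f` over the primes `p ≤ z`. -/
noncomputable def eulerProd (f : ℤ[X]) (z : ℕ) : ℝ :=
  ∏ p ∈ (Icc 1 z).filter Nat.Prime, (1 - (omega f p : ℝ) / p) / (1 - 1 / (p : ℝ))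

/-- The conclusion for one polynomial `f`: for all windows `(u, v]` with `H ^ ε ≤ v ≤ H / (log H) ^ B` the number of
`u < n ≤ v` with `|f(n)|` prime is `C_f(z) ∑ 1 / log |f(n)|` up to an error `v / (log H) ^ U`, and if no prime `p ≤ z`
divides all values of `f`, up to the error `C_f(z) (∑_{n ≤ v} 1 / log |f(n)|) / (log H) ^ U`. -/
def Good (ε : ℝ) (U B H z : ℕ) (f : ℤ[X]) : Prop :=
  ∀ u v : ℕ, u ≤ v → (H : ℝ) ^ ε ≤ v → (v : ℝ) * Real.log H ^ B ≤ H →
    |(primeCount f u v : ℝ) - eulerProd f z * logSum f u v| ≤ v / Real.log H ^ U ∧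
    ((∀ p : ℕ, p.Prime → p ≤ z → omega f p < p) →
      |(primeCount f u v : ℝ) - eulerProd f z * logSum f u v| ≤ eulerProd f z * logSum f 0 v / Real.log H ^ U)

open Pool.Agent.H300R2.BH Pool.Agent.H300R2.FB in
lemma primeCount_eq (f : ℤ[X]) (u v : ℕ) (h : u ≤ v) : (primeCount f u v : ℝ) = pa f v - pa f u := by
  classical
  unfold primeCount pa
  have h1 : (Icc 1 v).filter (fun n : ℕ => (f.eval (n : ℤ)).natAbs.Prime) =
      (Icc 1 u).filter (fun n : ℕ => (f.eval (n : ℤ)).natAbs.Prime) ∪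
      (Ioc u v).filter (fun n : ℕ => (f.eval (n : ℤ)).natAbs.Prime) := by
    rw [← filter_union]
    congr 1
    ext n
    simp only [mem_Icc, mem_union, mem_Ioc]
    omega
  have h2 : Disjoint ((Icc 1 u).filter (fun n : ℕ => (f.eval (n : ℤ)).natAbs.Prime))
      ((Ioc u v).filter (fun n : ℕ => (f.eval (n : ℤ)).natAbs.Prime)) := by
    apply disjoint_filter_filter
    rw [disjoint_left]
    intro n hn hn'
    rw [mem_Icc] at hn
    rw [mem_Ioc] at hn'
    omega
  rw [h1, card_union_of_disjoint h2]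
  push_cast
  ring

open Pool.Agent.H300R2.BH Pool.Agent.H300R2.FB in
lemma logSum_eq (f : ℤ[X]) (u v : ℕ) (h : u ≤ v) : logSum f u v = la f v - la f u := by
  classical
  unfold logSum la
  have h1 : (Icc 1 v).filter (fun n : ℕ => 2 ≤ |f.eval (n : ℤ)|) =
      (Icc 1 u).filter (fun n : ℕ => 2 ≤ |f.eval (n : ℤ)|) ∪
      (Ioc u v).filter (fun n : ℕ => 2 ≤ |f.eval (n : ℤ)|) := by
    rw [← filter_union]
    congr 1
    ext n
    simp only [mem_Icc, mem_union, mem_Ioc]
    omega
  have h2 : Disjoint ((Icc 1 u).filter (fun n : ℕ => 2 ≤ |f.eval (n : ℤ)|))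
      ((Ioc u v).filter (fun n : ℕ => 2 ≤ |f.eval (n : ℤ)|)) := by
    apply disjoint_filter_filter
    rw [disjoint_left]
    intro n hn hn'
    rw [mem_Icc] at hn
    rw [mem_Ioc] at hn'
    omega
  rw [h1, sum_union h2]
  ring

open Pool.Agent.H300R2.BH Pool.Agent.H300R2.FB in
lemma good_of (ε : ℝ) (U B H z : ℕ) (f : ℤ[X]) (h : Pool.Agent.N718.BHB.GoodB ε U B H z f) :
    Good ε U B H z f := by
  intro u v huv hv hvB
  obtain ⟨h1, h2⟩ := h u v huv hv hvB
  have e1 : eulerProd f z = SS z f := rfl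
  have e0 : logSum f 0 v = la f v := by
    rw [logSum_eq f 0 v (Nat.zero_le _), Pool.Agent.N718.BHB.la_zero, sub_zero]
  rw [primeCount_eq f u v huv, logSum_eq f u v huv, e1, e0]
  exact ⟨h1, fun h3 => h2 (fun p hp hpz => (h3 p hp hpz).ne)⟩

open Classical in
/-- Let `d ≥ 1`, `ε > 0` and `U ≥ 0`, let `E` be large in terms of these, and let `B` and `H` be large in terms of
these and `E`. Then `Good`, with `z = ⌊(log H) ^ E⌋`, holds for all polynomials of degree `d` and height at most `H` (with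
positive leading coefficient), with at most a proportion `(log H) ^ (-U)` of exceptions. -/
theorem result (d : ℕ) (hd : 1 ≤ d) (ε : ℝ) (hε : 0 < ε) (U : ℕ) : ∃ E₁ : ℕ, ∀ E : ℕ, E₁ ≤ E →
    ∃ B H₀ : ℕ, ∀ H : ℕ, H₀ ≤ H →
      (((box d H).filter (fun c => ¬ Good ε U B H ⌊Real.log H ^ E⌋₊ (pol c))).card : ℝ) ≤
        (box d H).card / Real.log H ^ U := by
  obtain ⟨E₁, h1⟩ := Pool.Agent.N718.BHB.good_box d hd ε hε U
  refine ⟨E₁, fun E hE => ?_⟩
  obtain ⟨B, H₀, h2⟩ := h1 E hE
  refine ⟨B, H₀, fun H hH => ?_⟩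
  exact h2 H hH (fun c => ¬ Good ε U B H ⌊Real.log H ^ E⌋₊ (pol c))
    (fun c _ hc hg => hc (good_of ε U B H _ (pol c) hg))

end Pool.Agent.Results.MP_51e72e_nt.PolynomialsOfHeight
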