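import Pool.Agent.N913.KS.S14

/-!
# The Bateman-Horn asymptotic for systems of values of almost all polynomials

The asymptotic formula of Bateman and Horn, in the shortest possible windows (up to `ε` in the
exponent), for 100 percent of the systems `f_(α i)(τ_i(n))`, `i = 1, ..., k`, where the same
polynomial may occur several times: prime `k`-tuples `f(n + h_1), ..., f(n + h_k)` among the values
of one polynomial `f` (for example twin prime values of almost all cubics), systems
`f(n), f(n + 2), g(n)`, and so on.

Here `f_a = P_a + ∑_(j < N) c_(a,j) X^j`, `a = 1, ..., r`, only the `N` lowest coefficients vary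
(`|c_(a,j)| ≤ H`), where `N` is at least twice the number of times a polynomial occurs; the `P_a` are
arbitrary integer polynomials of degree at most `d` and height at most `H (log H)^A`, the `τ_i` are
arbitrary nonconstant integer polynomials, and the windows are `J < n ≤ J + x`,
`(log H)^(k + ε) ≤ x`, `J + x ≤ (log H)^C` (the expected number of such `n` has the order of
`x / (log H)^k`, so `k + ε` is best possible up to `ε`). The Bateman-Horn product runs over the
primes below `y`, for any `y` between `log log H` and `(log H) / 2`.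

Method: the values at distinct positions are independent linear forms in the coefficients; second
moments over the coefficients, with the coefficients in fixed classes modulo the product `W` of the
primes below `ε' log log H`, are computed by moving along the vectors of Newton's interpolation
polynomials (one value changes, the earlier ones do not), using only the Siegel-Walfisz theorem; the
variance in a class is small compared with the square of the mean, because two values have no common
prime factors below `ε' log log H`. The second moment of the remaining factors of the product, over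
the primes up to `(log H) / 2`, is computed by the Chinese remainder theorem.
-/

set_option autoImplicit false

namespace Pool.Agent.Results.MP_51e72e_nt.TuplesInTinyWindows

open Finset Polynomial

/-- the polynomials `f_a = P_a + ∑_(j < N) c_(a,j) X^j` -/
noncomputable def fam {r N : ℕ} (P : Fin r → ℤ[X]) (c : Fin r × Fin N → ℤ) (a : Fin r) : ℤ[X] :=
  P a + ∑ j : Fin N, C (c (a, j)) * X ^ (j : ℕ)

/-- the number of the `n` with `J < n ≤ J + x` such that all numbers `|f_(α i)(τ_i(n))|` are
primes -/
noncomputable def primeSystems {r k : ℕ} (α : Fin k → Fin r) (τ : Fin k → ℤ[X]) (f : Fin r → ℤ[X])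
    (J x : ℕ) : ℕ :=
  #((Ioc J (J + x)).filter (fun n : ℕ => ∀ i, ((f (α i)).eval ((τ i).eval (n : ℤ))).natAbs.Prime))

/-- the number of residues `n` modulo `p` such that `p` divides the product of the
`f_(α i)(τ_i(n))` -/
noncomputable def omega {r k : ℕ} (α : Fin k → Fin r) (τ : Fin k → ℤ[X]) (f : Fin r → ℤ[X])
    (p : ℕ) : ℕ :=
  #((range p).filter (fun n : ℕ => (p : ℤ) ∣ ∏ i, (f (α i)).eval ((τ i).eval (n : ℤ))))

/-- the Bateman-Horn product of the system over the primes `p < y` -/
noncomputable def bhProduct {r k : ℕ} (α : Fin k → Fin r) (τ : Fin k → ℤ[X]) (f : Fin r → ℤ[X])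
    (y : ℕ) : ℝ :=
  ∏ p ∈ (range y).filter Nat.Prime, (1 - (omega α τ f p : ℝ) / p) / (1 - 1 / (p : ℝ)) ^ k

/-- **Bateman-Horn for almost all systems of values of polynomials, in tiny windows.** Let `k ≥ 1`,
let `τ_1, ..., τ_k` be nonconstant integer polynomials and `α_i ∈ {1, ..., r}` such that the pairs
`(α_i, τ_i)` are distinct, and let `N` be at least twice the number of the `i` with `α_i = a`, for
every `a`. For all `d`, `A`, `C` and `ε > 0`, all `H ≥ H₀`, all integer polynomials
`P_1, ..., P_r` of degree at most `d` with coefficients at most `H (log H)^A` in absolute value, all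
`x ≥ (log H)^(k + ε)`, all `y` with `log log H ≤ y ≤ (log H) / 2` and every finite set `W` of
integers `J ≥ 0` with `J + x ≤ (log H)^C`, all but at most `ε H^(r N)` of the integer vectors
`(c_(a,j))`, `|c_(a,j)| ≤ H`, have the following property for
`f_a = P_a + ∑_(j < N) c_(a,j) X^j`: for all but at most `ε #W` of the `J ∈ W`, the number of the
`n`, `J < n ≤ J + x`, such that all `|f_(α_i)(τ_i(n))|`, `i = 1, ..., k`, are primes is
`(1 + θ) 𝔖 x / (log H)^k`, `|θ| ≤ ε`, where `𝔖` is the Bateman-Horn product of the system over the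
primes below `y`. -/
theorem result (r k N : ℕ) (hk : 1 ≤ k) (α : Fin k → Fin r) (τ : Fin k → ℤ[X])
    (hτ : ∀ i, 1 ≤ (τ i).natDegree) (hdist : ∀ i j, α i = α j → τ i = τ j → i = j)
    (hN : ∀ a, 2 * #(univ.filter (fun i => α i = a)) ≤ N) (d A C : ℕ) (ε : ℝ) (hε : 0 < ε) :
    ∃ H₀ : ℕ, ∀ H : ℕ, H₀ ≤ H → ∀ P : Fin r → ℤ[X], (∀ a, (P a).natDegree ≤ d) →
      (∀ a i, |((P a).coeff i : ℝ)| ≤ H * Real.log H ^ A) →
      ∀ x y : ℕ, Real.log H ^ ((k : ℝ) + ε) ≤ x → Real.log (Real.log H) ≤ y →
      (y : ℝ) ≤ Real.log H / 2 →
      ∀ W : Finset ℕ, (∀ J ∈ W, ((J + x : ℕ) : ℝ) ≤ Real.log H ^ C) →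
      ∃ Bad : Finset (Fin r × Fin N → ℤ), (#Bad : ℝ) ≤ ε * H ^ (r * N) ∧
        ∀ c : Fin r × Fin N → ℤ, (∀ s, |c s| ≤ H) → c ∉ Bad →
          ∃ G ⊆ W, (1 - ε) * #W ≤ #G ∧ ∀ J ∈ G,
            |(primeSystems α τ (fam P c) J x : ℝ) -
                bhProduct α τ (fam P c) y * x / Real.log H ^ k| ≤
              ε * (bhProduct α τ (fam P c) y * x / Real.log H ^ k) := by
  have hinj : Function.Injective (fun i => (α i, τ i)) := by
    intro i j h
    exact hdist i j (congrArg Prod.fst h) (congrArg Prod.snd h)
  obtain ⟨H₀, h⟩ := Pool.Agent.N913.KS.windows r k N hk α τ hτ hinj hN d A C ε hε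
  refine ⟨H₀, fun H hH P hPd hP x y hx hy1 hy2 W hW => ?_⟩
  obtain ⟨Bad, h1, h2⟩ := h H hH P hPd hP x y hx hy1 hy2 W hW
  refine ⟨Bad, h1, fun c hc hcB => ?_⟩
  obtain ⟨G, g1, g2, g3⟩ := h2 c hc hcB
  refine ⟨G, g1, g2, fun J hJ => ?_⟩
  have e1 : primeSystems α τ (fam P c) J x =
      Pool.Agent.N913.KS.QQ α τ (Pool.Agent.N913.KS.pf P c) J x := rfl
  have e2 : bhProduct α τ (fam P c) y =
      Pool.Agent.N913.KT.SS k (Pool.Agent.N913.KS.FP α τ (Pool.Agent.N913.KS.pf P c)) y := by
    unfold bhProduct Pool.Agent.N913.KT.SS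
    apply prod_congr rfl
    intro p _
    have e3 : omega α τ (fam P c) p =
        Pool.Agent.N913.KT.om (Pool.Agent.N913.KS.FP α τ (Pool.Agent.N913.KS.pf P c)) p := by
      unfold omega Pool.Agent.N913.KT.om
      congr 1
      apply filter_congr
      intro n _
      rw [Pool.Agent.N913.KS.FP_eval]
      rfl
    rw [e3]
  rw [e1, e2]
  exact g3 J hJ

end Pool.Agent.Results.MP_51e72e_nt.TuplesInTinyWindows
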